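import Pool.Agent.Y684.RI.Core
import Pool.Agent.TH571.J141
import Pool.Agent.TH554.J145

/-!
# The reflection inequality for the modulus of the curves joining two compact sets

The theorem `result` answers question Q1 of the problem in the positive, in every dimension
`n = m + 2 ≥ 2`.
-/

set_option autoImplicit false

open MeasureTheory Set Filter Topology Metric
open scoped ENNReal NNReal

namespace Pool.Agent.Results.MP_69cc0b_an.ReflectionInequality

/-- Euclidean `n`-space. -/
abbrev Eucl (n : ℕ) := EuclideanSpace ℝ (Fin n)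

/-- A curve in `ℝⁿ ∪ {∞}` (the one-point compactification of `ℝⁿ`): a map defined and continuous
on an interval `[a, b]` (the values outside of the interval play no role). -/
structure Curve (n : ℕ) where
  a : ℝ
  b : ℝ
  le : a ≤ b
  map : ℝ → OnePoint (Eucl n)
  cont : ContinuousOn map (Icc a b)

variable {n : ℕ}

/-- The curve with its values regarded as points of `ℝⁿ` (the value `∞` is replaced by `0`; the
function is only used on intervals on which the curve avoids `∞`). -/
noncomputable def Curve.pt (γ : Curve n) (t : ℝ) : Eucl n := (γ.map t).elim 0 id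

/-- The curve is rectifiable: it lies in `ℝⁿ` and has finite length. -/
def Curve.IsRectifiable (γ : Curve n) : Prop :=
  (∀ t ∈ Icc γ.a γ.b, γ.map t ≠ OnePoint.infty) ∧ eVariationOn γ.pt (Icc γ.a γ.b) ≠ ⊤

/-- The line integral `∫_γ ρ ds` over a rectifiable curve: the integral of `ρ ∘ γ_s` over
`[0, length of γ]`, where `γ_s` is the parametrization of `γ` by arc length. -/
noncomputable def lineIntegral (ρ : Eucl n → ℝ≥0∞) (γ : Curve n) : ℝ≥0∞ :=
  ∫⁻ s in Icc 0 (eVariationOn γ.pt (Icc γ.a γ.b)).toReal,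
    ρ (naturalParameterization γ.pt (Icc γ.a γ.b) γ.a s)

/-- The family `Δ(A, B)` of all curves in `ℝⁿ ∪ {∞}` which join `A` and `B`. -/
def joining (A B : Set (OnePoint (Eucl n))) : Set (Curve n) :=
  {γ | γ.map γ.a ∈ A ∧ γ.map γ.b ∈ B}

/-- The conformal `n`-modulus of a family `Γ` of curves: the infimum of `∫ ρⁿ` over the Borel
functions `ρ : ℝⁿ → [0, ∞]` with `∫_γ ρ ds ≥ 1` for all rectifiable `γ` in `Γ`. -/
noncomputable def modulus (Γ : Set (Curve n)) : ℝ≥0∞ :=
  ⨅ (ρ : Eucl n → ℝ≥0∞) (_ : Measurable ρ)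
    (_ : ∀ γ ∈ Γ, γ.IsRectifiable → 1 ≤ lineIntegral ρ γ), ∫⁻ x, ρ x ^ n

/-- The restriction of a curve to a subinterval. -/
def Curve.sub (γ : Curve n) (s t : ℝ) (h₁ : γ.a ≤ s) (h₂ : s ≤ t) (h₃ : t ≤ γ.b) : Curve n :=
  ⟨s, t, h₂, γ.map, γ.cont.mono (Icc_subset_Icc h₁ h₃)⟩

/-- The curve passes through `∞`. -/
def Curve.Through (γ : Curve n) : Prop := ∃ t ∈ Icc γ.a γ.b, γ.map t = OnePoint.infty

/-- A convention for the curves through `∞`: `P γ` says that the curve `γ` counts (is regarded as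
locally rectifiable), and `J ρ γ` is the integral of `ρ` over it. All that is required is that
every part in `ℝⁿ` of a curve through `∞` which counts is rectifiable, and that the integral over
the curve is not smaller than the integral over the part. -/
def IsConvention (P : Curve n → Prop) (J : (Eucl n → ℝ≥0∞) → Curve n → ℝ≥0∞) : Prop :=
  ∀ γ : Curve n, γ.Through → P γ → ∀ s t (h₁ : γ.a ≤ s) (h₂ : s ≤ t) (h₃ : t ≤ γ.b),
    (∀ u ∈ Icc s t, γ.map u ≠ OnePoint.infty) →
      (γ.sub s t h₁ h₂ h₃).IsRectifiable ∧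
        ∀ ρ : Eucl n → ℝ≥0∞, Measurable ρ → lineIntegral ρ (γ.sub s t h₁ h₂ h₃) ≤ J ρ γ

/-- The conformal modulus of a family of curves, with respect to a convention for the curves
through `∞`. -/
noncomputable def modulusWith (P : Curve n → Prop) (J : (Eucl n → ℝ≥0∞) → Curve n → ℝ≥0∞)
    (Γ : Set (Curve n)) : ℝ≥0∞ :=
  ⨅ (ρ : Eucl n → ℝ≥0∞) (_ : Measurable ρ)
    (_ : ∀ γ ∈ Γ, γ.IsRectifiable → 1 ≤ lineIntegral ρ γ)
    (_ : ∀ γ ∈ Γ, γ.Through → P γ → 1 ≤ J ρ γ), ∫⁻ x, ρ x ^ n

/-- The set in `ℝⁿ ∪ {∞}` which is given by a subset of `ℝⁿ`. -/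
def emb (A : Set (Eucl n)) : Set (OnePoint (Eucl n)) := OnePoint.some '' A

/-- The reflection in the hyperplane `x_n = 0`: the sign of the last coordinate is changed. -/
noncomputable def reflect {m : ℕ} (x : Eucl (m + 2)) : Eucl (m + 2) :=
  WithLp.toLp 2 fun i => if i = Fin.last (m + 1) then -(x i) else x i

section aux

open Pool.Agent.TH221 Pool.Agent.TH221.J141 Pool.Agent.Y684.RI

/-- the reflection as a linear isometry -/
noncomputable def refl (m : ℕ) : Eucl (m + 2) ≃ₗᵢ[ℝ] Eucl (m + 2) where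
  toLinearEquiv := LinearEquiv.ofInvolutive
    { toFun := reflect
      map_add' := fun x y => by
        ext i
        simp only [reflect, PiLp.add_apply]
        split_ifs <;> ring
      map_smul' := fun c x => by
        ext i
        simp only [reflect, PiLp.smul_apply, smul_eq_mul, RingHom.id_apply]
        split_ifs <;> ring }
    (fun x => by
      ext i
      simp only [LinearMap.coe_mk, AddHom.coe_mk, reflect]
      split_ifs <;> simp)
  norm_map' := fun x => by
    change ‖reflect x‖ = ‖x‖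
    rw [EuclideanSpace.norm_eq, EuclideanSpace.norm_eq]
    congr 1
    refine Finset.sum_congr rfl fun i _ => ?_
    simp only [reflect]
    split_ifs <;> simp

lemma refl_apply {m : ℕ} (x : Eucl (m + 2)) : refl m x = reflect x := rfl

/-- the last coordinate -/
noncomputable def lastC (m : ℕ) : Eucl (m + 2) →L[ℝ] ℝ := EuclideanSpace.proj (Fin.last (m + 1))

lemma lastC_apply {m : ℕ} (x : Eucl (m + 2)) : lastC m x = x (Fin.last (m + 1)) := rfl

lemma isRefl (m : ℕ) : IsRefl (lastC m) (refl m) where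
  invol := fun x => by
    rw [refl_apply, refl_apply]
    ext i
    simp only [reflect]
    split_ifs <;> simp
  neg := fun x => by
    rw [refl_apply, lastC_apply, lastC_apply]
    simp [reflect]
  bound := fun x => by
    rw [refl_apply, lastC_apply, EuclideanSpace.dist_eq]
    have h1 : ∑ i, dist (x i) (reflect x i) ^ 2 = (2 * |x (Fin.last (m + 1))|) ^ 2 := by
      rw [Finset.sum_eq_single (Fin.last (m + 1))]
      · simp only [reflect, if_true, Real.dist_eq]
        rw [sub_neg_eq_add, ← two_mul, abs_mul, abs_two]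
      · intro i _ hi
        simp [reflect, hi]
      · intro h
        exact absurd (Finset.mem_univ _) h
    rw [h1, Real.sqrt_sq (by positivity)]
  ne := fun h => by
    have h1 : lastC m (EuclideanSpace.single (Fin.last (m + 1)) (1 : ℝ)) = 1 := by
      rw [lastC_apply]
      simp
    rw [h] at h1
    simp at h1

/-- reparametrization to the unit interval -/
lemma reparam {c : ℝ → Eucl n} {a b : ℝ} (hab : a ≤ b)
    (hc : ContinuousOn c (Icc a b)) (hv : eVariationOn c (Icc a b) ≠ ⊤) (ρ : Eucl n → ℝ≥0∞) :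
    ContinuousOn (fun t => c (a + (b - a) * t)) (Icc 0 1) ∧
    eVariationOn (fun t => c (a + (b - a) * t)) (Icc 0 1) ≠ ⊤ ∧
    (fun t => c (a + (b - a) * t)) '' Icc 0 1 = c '' Icc a b ∧
    lineInt ρ (fun t => c (a + (b - a) * t)) =
      ∫⁻ s in Icc 0 (eVariationOn c (Icc a b)).toReal, ρ (naturalParameterization c (Icc a b) a s)
    := by
  set φ : ℝ → ℝ := fun t => a + (b - a) * t with hφ
  have hmono : MonotoneOn φ (Icc 0 1) := by
    intro s _ t _ hst
    simp only [hφ]
    have : 0 ≤ b - a := by linarith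
    gcongr
  have himg : φ '' Icc 0 1 = Icc a b := by
    apply Subset.antisymm
    · rintro _ ⟨t, ht, rfl⟩
      simp only [hφ]
      have h0 : 0 ≤ b - a := by linarith
      constructor
      · have := mul_nonneg h0 ht.1
        linarith
      · have := mul_le_mul_of_nonneg_left ht.2 h0
        linarith
    · have h1 := intermediate_value_Icc (zero_le_one (α := ℝ)) (f := φ)
        (by simp only [hφ]; fun_prop)
      have h2 : φ 0 = a := by simp [hφ]
      have h3 : φ 1 = b := by simp [hφ]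
      rwa [h2, h3] at h1
  have hvar : eVariationOn (c ∘ φ) (Icc 0 1) = eVariationOn c (Icc a b) := by
    rw [eVariationOn.comp_eq_of_monotoneOn c φ hmono, himg]
  have hcφ : ContinuousOn (c ∘ φ) (Icc 0 1) := by
    refine hc.comp (by simp only [hφ]; fun_prop) ?_
    rw [← himg]
    exact mapsTo_image _ _
  have hvφ : eVariationOn (c ∘ φ) (Icc 0 1) ≠ ⊤ := by rwa [hvar]
  refine ⟨hcφ, hvφ, ?_, ?_⟩
  · change (c ∘ φ) '' Icc 0 1 = _
    rw [image_comp, himg]
  · change lineInt ρ (c ∘ φ) = _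
    unfold lineInt
    rw [hvar]
    refine setLIntegral_congr_fun measurableSet_Icc fun s hs => ?_
    rw [← hvar, ← V_image hcφ hvφ] at hs
    obtain ⟨t, ht, rfl⟩ := hs
    have e1 : variationOnFromTo (c ∘ φ) (Icc 0 1) 0 t = variationOnFromTo c (Icc a b) a (φ t) := by
      rw [variationOnFromTo.comp_eq_of_monotoneOn c φ hmono (by simp) ht, himg]
      simp [hφ]
    have e2 := N_V hvφ ht
    have e3 := edist_naturalParameterization_eq_zero (f := c) (s := Icc a b)
      (BoundedVariationOn.locallyBoundedVariationOn hv) (a := a) (left_mem_Icc.2 hab)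
      (b := φ t) (by rw [← himg]; exact mem_image_of_mem _ ht)
    rw [edist_eq_zero] at e3
    rw [e2, e1, e3]
    rfl

lemma pt_coe {γ : Curve n} {t : ℝ} (h : γ.map t ≠ OnePoint.infty) :
    ((γ.pt t : Eucl n) : OnePoint (Eucl n)) = γ.map t := by
  obtain ⟨x, hx⟩ := OnePoint.ne_infty_iff_exists.1 h
  unfold Curve.pt
  rw [← hx]
  rfl

lemma pt_continuousOn {γ : Curve n} {s : Set ℝ} (hs : s ⊆ Icc γ.a γ.b)
    (h : ∀ t ∈ s, γ.map t ≠ OnePoint.infty) : ContinuousOn γ.pt s := by
  have h1 : ContinuousOn γ.map s := γ.cont.mono hs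
  have h2 : EqOn (fun t => ((γ.pt t : Eucl n) : OnePoint (Eucl n))) γ.map s := fun t ht =>
    pt_coe (h t ht)
  have h3 : ContinuousOn (fun t => ((γ.pt t : Eucl n) : OnePoint (Eucl n))) s := h1.congr h2
  exact (OnePoint.isOpenEmbedding_coe.isInducing.continuousOn_iff).2 h3

/-- a rectifiable curve in terms of `1`-Lipschitz curves -/
lemma toCrv {γ : Curve n} (h : γ.IsRectifiable) :
    ∃ (g : ℝ → Eucl n) (ℓ : ℝ), LipschitzWith 1 g ∧ 0 ≤ ℓ ∧ g 0 = γ.pt γ.a ∧ g ℓ = γ.pt γ.b ∧
      g '' Icc 0 ℓ = γ.pt '' Icc γ.a γ.b ∧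
      ∀ ρ : Eucl n → ℝ≥0∞, lineIntegral ρ γ = cost ρ g 0 ℓ := by
  have hc : ContinuousOn γ.pt (Icc γ.a γ.b) := pt_continuousOn (subset_refl _) h.1
  obtain ⟨h1, h2, h3, -⟩ := reparam γ.le hc h.2 (fun _ => 0)
  obtain ⟨g, ℓ, hg, hℓ, hg0, hg1, him, hcost⟩ := bridge_to_crv h1 h2
  refine ⟨g, ℓ, hg, hℓ, ?_, ?_, ?_, fun ρ => ?_⟩
  · rw [hg0]; simp
  · rw [hg1]; simp
  · rw [him, h3]
  · rw [← hcost ρ]
    exact (reparam γ.le hc h.2 ρ).2.2.2.symm

lemma adm_of {A B : Set (Eucl n)} {ρ : Eucl n → ℝ≥0∞} (hm : Measurable ρ)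
    (h : ∀ γ ∈ joining (emb A) (emb B), γ.IsRectifiable → 1 ≤ lineIntegral ρ γ) :
    Adm ∅ A B ρ := by
  refine ⟨hm, fun x hx y hy g ℓ hg => ?_⟩
  obtain ⟨c, hc, h0, h1, hv, him, hcost⟩ := bridge_of_crv hg
  set γ : Curve n := ⟨0, 1, zero_le_one, fun t => (c t : OnePoint (Eucl n)),
    (OnePoint.continuous_coe.comp_continuousOn hc)⟩ with hγ
  have hpt : γ.pt = c := rfl
  have hr : γ.IsRectifiable := ⟨fun t _ => OnePoint.coe_ne_infty _, by rw [hpt]; exact hv⟩
  have h2 := h γ ⟨⟨x, hx, by simp [hγ, h0]⟩, ⟨y, hy, by simp [hγ, h1]⟩⟩ hr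
  refine h2.trans (le_trans (le_of_eq ?_) (hcost ρ hm))
  rfl

lemma of_adm {A B : Set (Eucl n)} {ρ : Eucl n → ℝ≥0∞} (h : Adm ∅ A B ρ) :
    ∀ γ ∈ joining (emb A) (emb B), γ.IsRectifiable → 1 ≤ lineIntegral ρ γ := by
  rintro γ ⟨⟨x, hx, hx'⟩, ⟨y, hy, hy'⟩⟩ hr
  obtain ⟨g, ℓ, hg, hℓ, hg0, hg1, him, hcost⟩ := toCrv hr
  rw [hcost ρ]
  have e0 : γ.pt γ.a = x := by
    unfold Curve.pt; rw [← hx']; rfl
  have e1 : γ.pt γ.b = y := by
    unfold Curve.pt; rw [← hy']; rfl
  exact h.2 x hx y hy g ℓ ⟨hg, hℓ, by rw [hg0, e0], by rw [hg1, e1], fun _ _ => mem_univ _,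
    by simp⟩

lemma modulus_eq (A B : Set (Eucl n)) :
    modulus (joining (emb A) (emb B)) =
      ⨅ (ρ : Eucl n → ℝ≥0∞) (_ : Adm ∅ A B ρ), ∫⁻ x, ρ x ^ n := by
  unfold modulus
  refine le_antisymm ?_ ?_
  · refine le_iInf₂ fun ρ hρ => ?_
    exact iInf_le_of_le ρ (iInf_le_of_le hρ.1 (iInf_le _ (of_adm hρ)))
  · refine le_iInf fun ρ => le_iInf₂ fun h1 h2 => ?_
    exact iInf₂_le ρ (adm_of h1 h2)

/-- the first part of a curve through `∞`, up to a large sphere -/
lemma first_part {γ : Curve n} (ht : γ.Through) {R : ℝ} {x : Eucl n} (hx : γ.map γ.a = x)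
    (hxR : ‖x‖ < R) :
    ∃ s, ∃ (_ : γ.a ≤ s) (_ : s ≤ γ.b), (∀ u ∈ Icc γ.a s, γ.map u ≠ OnePoint.infty) ∧
      (∀ u ∈ Icc γ.a s, ‖γ.pt u‖ ≤ R) ∧ ‖γ.pt s‖ = R := by
  set U : Set (OnePoint (Eucl n)) := emb (ball (0 : Eucl n) R) with hU
  have hUo : IsOpen U := OnePoint.isOpen_image_coe.2 isOpen_ball
  have hCc : IsClosed (emb (closedBall (0 : Eucl n) R)) :=
    OnePoint.isClosed_image_coe.2 ⟨isClosed_closedBall, isCompact_closedBall _ _⟩
  set Z : Set ℝ := {t | t ∈ Icc γ.a γ.b ∧ γ.map t ∉ U} with hZ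
  have hZc : IsCompact Z := by
    have h1 : IsClosed Z := by
      have h2 := γ.cont.preimage_isClosed_of_isClosed isClosed_Icc hUo.isClosed_compl
      exact h2
    exact isCompact_Icc.of_isClosed_subset h1 fun t ht => ht.1
  obtain ⟨t₀, ht₀, ht₀'⟩ := ht
  have hZn : Z.Nonempty := ⟨t₀, ht₀, by
    rw [ht₀']
    rintro ⟨y, -, hy⟩
    exact OnePoint.coe_ne_infty _ hy⟩
  have hs := hZc.sInf_mem hZn
  set s := sInf Z with hsdef
  have hlt : ∀ u ∈ Ico γ.a s, γ.map u ∈ U := by
    intro u hu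
    by_contra hcon
    have : u ∈ Z := ⟨⟨hu.1, hu.2.le.trans hs.1.2⟩, hcon⟩
    exact absurd (csInf_le hZc.bddBelow this) (not_le.2 hu.2)
  have ha : γ.map γ.a ∈ U := ⟨x, by simpa using hxR, hx.symm⟩
  have has : γ.a < s := by
    rcases hs.1.1.lt_or_eq with h | h
    · exact h
    · exfalso
      rw [← h] at hs
      exact hs.2 ha
  have hcl : γ.map s ∈ emb (closedBall (0 : Eucl n) R) := by
    have h1 : ContinuousWithinAt γ.map (Ico γ.a s) s :=
      (γ.cont s hs.1).mono (Ico_subset_Icc_self.trans (Icc_subset_Icc le_rfl hs.1.2))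
    have h2 : s ∈ closure (Ico γ.a s) := by
      rw [closure_Ico has.ne]
      exact right_mem_Icc.2 has.le
    have h3 := h1.mem_closure h2 (t := emb (closedBall (0 : Eucl n) R)) fun u hu => by
      exact image_mono ball_subset_closedBall (hlt u hu)
    rwa [hCc.closure_eq] at h3
  obtain ⟨p, hp, hps⟩ := hcl
  have hpR : ‖p‖ = R := by
    rw [mem_closedBall_zero_iff] at hp
    refine le_antisymm hp ?_
    by_contra hcon
    push Not at hcon
    exact hs.2 ⟨p, by simpa using hcon, hps⟩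
  have hpt : ∀ u ∈ Icc γ.a s, ∃ q : Eucl n, γ.map u = q ∧ ‖q‖ ≤ R := by
    intro u hu
    rcases hu.2.lt_or_eq with h | h
    · obtain ⟨q, hq, hq'⟩ := hlt u ⟨hu.1, h⟩
      rw [mem_ball_zero_iff] at hq
      exact ⟨q, hq'.symm, hq.le⟩
    · rw [h]
      exact ⟨p, hps.symm, hpR.le⟩
  refine ⟨s, has.le, hs.1.2, ?_, ?_, ?_⟩
  · intro u hu
    obtain ⟨q, hq, -⟩ := hpt u hu
    rw [hq]
    exact OnePoint.coe_ne_infty _
  · intro u hu
    obtain ⟨q, hq, hqR⟩ := hpt u hu
    have : γ.pt u = q := by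
      unfold Curve.pt; rw [hq]; rfl
    rw [this]
    exact hqR
  · have : γ.pt s = p := by
      unfold Curve.pt; rw [← hps]; rfl
    rw [this]
    exact hpR

/-- the curves through `∞` do not contribute -/
lemma modulusWith_le (hn : 2 ≤ n) {P : Curve n → Prop}
    {J : (Eucl n → ℝ≥0∞) → Curve n → ℝ≥0∞} (hPJ : IsConvention P J) {A B : Set (Eucl n)}
    (hA : IsCompact A) :
    modulusWith P J (joining (emb A) (emb B)) ≤ modulus (joining (emb A) (emb B)) := by
  have hn1 : 1 ≤ n := by omega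
  unfold modulus
  refine le_iInf fun ρ => le_iInf₂ fun hm hρ => ?_
  by_cases hfin : ∫⁻ x, ρ x ^ n = ⊤
  · rw [hfin]; exact le_top
  have hρtop : nrm volume ρ ≠ ⊤ := nrm_ne_top hfin
  obtain ⟨R₀, hR₀, hAR⟩ : ∃ R₀ > 0, ∀ x ∈ A, ‖x‖ ≤ R₀ := by
    obtain ⟨R, hR⟩ := hA.isBounded.exists_norm_le
    refine ⟨|R| + 1, by positivity, fun x hx => ?_⟩
    have := (hR x hx).trans (le_abs_self R)
    linarith
  have hstep : ∀ δ : ℝ≥0∞, 0 < δ →
      modulusWith P J (joining (emb A) (emb B)) ≤ (nrm volume ρ + δ) ^ n := by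
    intro δ hδ
    obtain ⟨R₁, b, hR₁, hb, hbfin, hbn, hbar⟩ := exists_barrier hn hR₀ (ε := δ ^ n)
      (ENNReal.pow_pos hδ n)
    set K : Set (Eucl n) := closedBall 0 (2 * R₁) with hKdef
    have hKm : MeasurableSet K := measurableSet_closedBall
    set σ : Eucl n → ℝ≥0∞ := fun x => ρ x + K.indicator b x with hσ
    have hσm : Measurable σ := hm.add (hb.measurable.indicator hKm)
    have hR₁0 : 0 < R₁ := hR₀.trans hR₁
    have h1 : modulusWith P J (joining (emb A) (emb B)) ≤ ∫⁻ x, σ x ^ n := by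
      unfold modulusWith
      refine iInf_le_of_le σ (iInf_le_of_le hσm (iInf_le_of_le ?_ (iInf_le _ ?_)))
      · intro γ hγ hr
        refine (hρ γ hγ hr).trans ?_
        unfold lineIntegral
        exact lintegral_mono fun s => le_self_add
      · rintro γ ⟨⟨x, hx, hx'⟩, -⟩ ht hP
        obtain ⟨s, h₂, h₃, hfinite, hle, hend⟩ := first_part ht hx'.symm
          ((hAR x hx).trans_lt hR₁)
        obtain ⟨hr, hJ⟩ := hPJ γ ht hP γ.a s le_rfl h₂ h₃ hfinite
        refine le_trans ?_ (hJ σ hσm)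
        obtain ⟨g, ℓ, hg, hℓ, hg0, hg1, him, hcost⟩ := toCrv hr
        rw [hcost σ]
        have e0 : g 0 = x := by
          rw [hg0]
          change (γ.map γ.a).elim 0 id = x
          rw [← hx']
          rfl
        have e1 : ‖g ℓ‖ = R₁ := by
          rw [hg1]
          exact hend
        refine (hbar g hg ℓ hℓ (by rw [e0]; exact hAR x hx) e1.ge).trans ?_
        refine setLIntegral_mono' measurableSet_Icc fun u hu => ?_
        have h4 : g u ∈ g '' Icc 0 ℓ := mem_image_of_mem _ hu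
        rw [him] at h4
        obtain ⟨w, hw, hwg⟩ := h4
        have h5 : ‖g u‖ ≤ R₁ := by
          rw [← hwg]
          exact hle w hw
        have h6 : g u ∈ K := by
          rw [hKdef, mem_closedBall_zero_iff]
          linarith
        simp only [hσ, indicator_of_mem h6]
        exact le_add_self
    refine h1.trans ?_
    rw [← nrm_le_iff hn1]
    refine (nrm_add_le hn1 hm.aemeasurable (hb.measurable.indicator hKm).aemeasurable).trans ?_
    gcongr
    rw [nrm_le_iff hn1]
    refine le_trans (le_of_eq ?_) hbn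
    rw [← lintegral_indicator hKm]
    refine lintegral_congr fun x => ?_
    by_cases hx : x ∈ K
    · rw [indicator_of_mem hx, indicator_of_mem hx]
    · rw [indicator_of_notMem hx, indicator_of_notMem hx, zero_pow (by omega)]
  rw [← nrm_pow hn1]
  have hlim : Tendsto (fun k : ℕ => (nrm volume ρ + ((k : ℝ≥0∞) + 1)⁻¹) ^ n) atTop
      (𝓝 ((nrm volume ρ + 0) ^ n)) := by
    have h1 : Tendsto (fun k : ℕ => ((k : ℝ≥0∞) + 1)⁻¹) atTop (𝓝 0) := by
      refine tendsto_of_tendsto_of_tendsto_of_le_of_le tendsto_const_nhds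
        ENNReal.tendsto_inv_nat_nhds_zero (fun _ => zero_le) fun k => ?_
      exact ENNReal.inv_le_inv.2 le_self_add
    have h3 := (Tendsto.const_add (nrm volume ρ) h1).ennrpow_const (n : ℝ)
    simpa only [ENNReal.rpow_natCast] using h3
  rw [add_zero] at hlim
  exact ge_of_tendsto' hlim fun k => hstep _ (by simp)

lemma modulus_le_with {P : Curve n → Prop} {J : (Eucl n → ℝ≥0∞) → Curve n → ℝ≥0∞}
    (Γ : Set (Curve n)) : modulus Γ ≤ modulusWith P J Γ := by
  unfold modulusWith
  refine le_iInf fun ρ => le_iInf₂ fun hm hρ => le_iInf fun _ => ?_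
  exact iInf_le_of_le ρ (iInf_le_of_le hm (iInf_le _ hρ))

end aux

/-- **Full answer to Q1: the inequality is true.** In every dimension `n = m + 2 ≥ 2` and for all
nonempty compact sets `E` in the upper half space `x_n > 0` and `F` in the lower half space
`x_n < 0`, with `F*` the mirror image of `F`, one has `M(Δ(E, F)) ≤ M(Δ(E, F*))`. The first part is
the standard reading (curves through `∞` are not rectifiable); the second part says that the same
inequality holds for every convention for the curves through `∞`. -/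
theorem result (m : ℕ) (E F : Set (Eucl (m + 2))) (hE : IsCompact E) (hF : IsCompact F)
    (hEn : E.Nonempty) (_hFn : F.Nonempty) (hEp : ∀ x ∈ E, 0 < x (Fin.last (m + 1)))
    (hFm : ∀ x ∈ F, x (Fin.last (m + 1)) < 0) :
    modulus (joining (emb E) (emb F)) ≤ modulus (joining (emb E) (emb (reflect '' F))) ∧
    ∀ (P : Curve (m + 2) → Prop) (J : (Eucl (m + 2) → ℝ≥0∞) → Curve (m + 2) → ℝ≥0∞),
      IsConvention P J →
      modulusWith P J (joining (emb E) (emb F)) ≤
        modulusWith P J (joining (emb E) (emb (reflect '' F))) := by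
  have h1 : modulus (joining (emb E) (emb F)) ≤
      modulus (joining (emb E) (emb (reflect '' F))) := by
    rw [modulus_eq, modulus_eq]
    refine le_iInf₂ fun ρ hρ => ?_
    exact Pool.Agent.Y684.RI.core (by omega) (isRefl m) hE hF hEn hEp hFm hρ
  refine ⟨h1, fun P J hPJ => ?_⟩
  exact ((modulusWith_le (by omega) hPJ hE).trans h1).trans (modulus_le_with _)

end Pool.Agent.Results.MP_69cc0b_an.ReflectionInequality
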